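import Mathlib

/-! TYPICAL POINTS IN THE LEVEL OF THE TOP COORDINATE (real analysis of ns_notes_94 (C)(1)).

`η c` is the level of the top coordinate which is known at the window `c ∈ [0,C]`, `G c r` is the entropy of the first
`r` digits of the top coordinate given the label of the window `c`. The windows are parametrised by the level `r`:
`crit r` is the least window with `r ≤ η`. Monotone functions of `r` are differentiable almost everywhere, so all ratios
are finite at almost every level, without filling of jumps. `gm r` is the limit of the densities `d/dr G (c, r)` for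
`c` increasing to `crit r`. -/

set_option autoImplicit false

namespace Pool.Agent.Helper75.MX

open MeasureTheory Set Filter Topology

/-- the data: see the header -/
structure Fam (η : ℝ → ℝ) (G : ℝ → ℝ → ℝ) (C : ℝ) : Prop where
  hC : 0 < C
  mono : MonotoneOn η (Icc 0 C)
  η0 : η 0 = 0
  ηC : η C = 1
  rc : ∀ c ∈ Ico (0 : ℝ) C, ContinuousWithinAt η (Ici c) c
  inc : ∀ c ∈ Icc (0 : ℝ) C, ∀ a b : ℝ, 0 ≤ a → a ≤ b → b ≤ 1 → 0 ≤ G c b - G c a ∧ G c b - G c a ≤ b - a
  anti : ∀ c ∈ Icc (0 : ℝ) C, ∀ c' ∈ Icc (0 : ℝ) C, c ≤ c' → ∀ a b : ℝ, 0 ≤ a → a ≤ b → b ≤ 1 →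
    G c' b - G c' a ≤ G c b - G c a

/-- the least window which knows the digits up to the level `r` -/
noncomputable def crit (η : ℝ → ℝ) (C r : ℝ) : ℝ := sInf {c | c ∈ Icc (0 : ℝ) C ∧ r ≤ η c}

/-- the density of the digits at the level `r` given the labels of the windows before `crit r` -/
noncomputable def gm (η : ℝ → ℝ) (G : ℝ → ℝ → ℝ) (C : ℝ) (r : ℝ) : ℝ :=
  ⨅ q : {q : ℚ // (q : ℝ) ∈ Icc (0 : ℝ) C}, if η q.1 < r then max 0 (min 1 (deriv (G q.1) r)) else 1

section basic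

variable {η : ℝ → ℝ} {G : ℝ → ℝ → ℝ} {C : ℝ}

theorem Fam.C_mem (F : Fam η G C) : C ∈ Icc (0 : ℝ) C := ⟨F.hC.le, le_rfl⟩

theorem Fam.zero_mem (F : Fam η G C) : (0 : ℝ) ∈ Icc (0 : ℝ) C := ⟨le_rfl, F.hC.le⟩

theorem Fam.set_ne (F : Fam η G C) {r : ℝ} (hr : r ≤ 1) : {c | c ∈ Icc (0 : ℝ) C ∧ r ≤ η c}.Nonempty :=
  ⟨C, F.C_mem, by rw [F.ηC]; exact hr⟩

theorem set_bdd {r : ℝ} : BddBelow {c | c ∈ Icc (0 : ℝ) C ∧ r ≤ η c} := ⟨0, fun _ hc => hc.1.1⟩

theorem Fam.crit_mem (F : Fam η G C) {r : ℝ} (hr : r ≤ 1) : crit η C r ∈ Icc (0 : ℝ) C :=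
  ⟨le_csInf (F.set_ne hr) fun _ hc => hc.1.1, csInf_le set_bdd ⟨F.C_mem, by rw [F.ηC]; exact hr⟩⟩

theorem Fam.crit_mono (F : Fam η G C) : MonotoneOn (crit η C) (Iic 1) := fun _ _ _ hs hrs =>
  csInf_le_csInf set_bdd (F.set_ne hs) fun _ hc => ⟨hc.1, hrs.trans hc.2⟩

/-- windows before `crit r` do not know the level `r` -/
theorem η_lt {r c : ℝ} (hc : c ∈ Icc (0 : ℝ) C) (h : c < crit η C r) : η c < r := by
  by_contra h1
  exact absurd (csInf_le set_bdd ⟨hc, not_lt.1 h1⟩) (not_le.2 h)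

/-- windows after `crit r` know the level `r` -/
theorem Fam.le_η (F : Fam η G C) {r c : ℝ} (hr : r ≤ 1) (hc : c ∈ Icc (0 : ℝ) C) (h : crit η C r < c) : r ≤ η c := by
  obtain ⟨c', hc', hlt⟩ := exists_lt_of_csInf_lt (F.set_ne hr) h
  exact hc'.2.trans (F.mono hc'.1 hc hlt.le)

/-- `crit r` knows the level `r` -/
theorem Fam.le_η_crit (F : Fam η G C) {r : ℝ} (hr : r ≤ 1) : r ≤ η (crit η C r) := by
  have hm := F.crit_mem hr
  rcases hm.2.eq_or_lt with h | h
  · rw [h, F.ηC]; exact hr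
  · have h1 := (F.rc _ ⟨hm.1, h⟩)
    have h2 : Tendsto η (𝓝[>] (crit η C r)) (𝓝 (η (crit η C r))) := h1.mono_left (nhdsWithin_mono _ Ioi_subset_Ici_self)
    refine ge_of_tendsto h2 ?_
    filter_upwards [Ioo_mem_nhdsGT h] with x hx
    exact F.le_η hr ⟨hm.1.trans hx.1.le, hx.2.le⟩ hx.1

theorem Fam.η_lt_iff (F : Fam η G C) {r c : ℝ} (hr : r ≤ 1) (hc : c ∈ Icc (0 : ℝ) C) :
    η c < r ↔ c < crit η C r := by
  refine ⟨fun h => ?_, η_lt hc⟩
  by_contra h1
  exact absurd ((F.le_η_crit hr).trans (F.mono (F.crit_mem hr) hc (not_lt.1 h1))) (not_le.2 h)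

theorem Fam.crit_pos (F : Fam η G C) {r : ℝ} (h0 : 0 < r) (hr : r ≤ 1) : 0 < crit η C r :=
  (F.η_lt_iff hr F.zero_mem).1 (by rw [F.η0]; exact h0)

theorem Fam.mono_G (F : Fam η G C) {c : ℝ} (hc : c ∈ Icc (0 : ℝ) C) : MonotoneOn (G c) (Icc 0 1) :=
  fun a ha b hb hab => by linarith [(F.inc c hc a b ha.1 hab hb.2).1]

theorem Fam.lip_G (F : Fam η G C) {c : ℝ} (hc : c ∈ Icc (0 : ℝ) C) : LipschitzOnWith 1 (G c) (Icc 0 1) := by
  refine LipschitzOnWith.of_dist_le_mul fun a ha b hb => ?_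
  rw [NNReal.coe_one, one_mul, Real.dist_eq, Real.dist_eq]
  rcases le_total a b with h | h
  · have := F.inc c hc a b ha.1 h hb.2
    rw [abs_sub_comm, abs_of_nonneg this.1, abs_sub_comm, abs_of_nonneg (sub_nonneg.2 h)]
    exact this.2
  · have := F.inc c hc b a hb.1 h ha.2
    rw [abs_of_nonneg this.1, abs_of_nonneg (sub_nonneg.2 h)]
    exact this.2

theorem measurable_gm : Measurable (gm η G C) := by
  refine Measurable.iInf fun q => ?_
  refine Measurable.ite measurableSet_Ioi ?_ measurable_const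
  exact (measurable_const).max (measurable_const.min (measurable_deriv _))

instance [h : Fact (0 < C)] : Nonempty {q : ℚ // (q : ℝ) ∈ Icc (0 : ℝ) C} :=
  ⟨⟨0, by simp [h.out.le]⟩⟩

theorem Fam.ne (F : Fam η G C) : Nonempty {q : ℚ // (q : ℝ) ∈ Icc (0 : ℝ) C} := ⟨⟨0, by simp [F.hC.le]⟩⟩

theorem gm_bdd (r : ℝ) : BddBelow (range fun q : {q : ℚ // (q : ℝ) ∈ Icc (0 : ℝ) C} =>
    if η q.1 < r then max 0 (min 1 (deriv (G q.1) r)) else 1) := by
  refine ⟨0, ?_⟩
  rintro _ ⟨q, rfl⟩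
  dsimp only
  split_ifs
  · exact le_max_left _ _
  · exact zero_le_one

theorem gm_nonneg (r : ℝ) : 0 ≤ gm η G C r := by
  refine Real.iInf_nonneg fun q => ?_
  split_ifs
  · exact le_max_left _ _
  · exact zero_le_one

theorem Fam.gm_le_one (F : Fam η G C) (r : ℝ) : gm η G C r ≤ 1 := by
  obtain ⟨q⟩ := F.ne
  refine (ciInf_le (gm_bdd r) q).trans ?_
  split_ifs
  · exact max_le zero_le_one (min_le_left _ _)
  · exact le_rfl

theorem gm_le {q : ℚ} (hq : (q : ℝ) ∈ Icc (0 : ℝ) C) {r : ℝ} (h : η q < r) :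
    gm η G C r ≤ max 0 (min 1 (deriv (G q) r)) := by
  refine (ciInf_le (gm_bdd r) ⟨q, hq⟩).trans ?_
  simp only [h, if_true, le_refl]

end basic

/-! ### the typical levels -/

/-- two sided increments of a differentiable function -/
theorem incr_tendsto {α : Type*} {l : Filter α} {f : ℝ → ℝ} {f' r : ℝ} (hf : HasDerivAt f f' r) {e : α → ℝ}
    (he : Tendsto e l (𝓝 0)) (hpos : ∀ᶠ j in l, 0 < e j) (a b : ℝ) :
    Tendsto (fun j => (f (r + b * e j) - f (r + a * e j)) / e j) l (𝓝 (f' * (b - a))) := by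
  have key : ∀ a : ℝ, Tendsto (fun j => (f (r + a * e j) - f r) / e j) l (𝓝 (f' * a)) := by
    intro a
    have h1 : HasDerivAt (fun x : ℝ => f (r + a * x)) (f' * a) 0 := by
      have h2 : HasDerivAt (fun x : ℝ => r + a * x) a 0 := by
        simpa using ((hasDerivAt_id (0 : ℝ)).const_mul a).const_add r
      have h3 : HasDerivAt f f' (r + a * 0) := by simpa using hf
      exact h3.comp (0 : ℝ) h2
    have h4 := (hasDerivAt_iff_tendsto_slope.1 h1)
    have h5 : Tendsto e l (𝓝[≠] 0) := by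
      refine tendsto_nhdsWithin_iff.2 ⟨he, ?_⟩
      filter_upwards [hpos] with j hj
      exact hj.ne'
    refine (h4.comp h5).congr fun j => ?_
    simp only [Function.comp, slope_def_field, mul_zero, add_zero, sub_zero]
  refine ((key b).sub (key a)).congr' ?_ |>.trans (le_of_eq (by rw [mul_sub]))
  filter_upwards with j
  ring

variable {η : ℝ → ℝ} {G : ℝ → ℝ → ℝ} {C : ℝ}

/-- GOOD LEVELS: the densities exist, and the level is a Lebesgue point of the density `gm` -/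
structure Good (η : ℝ → ℝ) (G : ℝ → ℝ → ℝ) (C r : ℝ) : Prop where
  mem : r ∈ Ioo (0 : ℝ) 1
  diff : ∀ q : ℚ, (q : ℝ) ∈ Icc (0 : ℝ) C → DifferentiableAt ℝ (G q) r
  leb : HasDerivAt (fun x => ∫ t in (0 : ℝ)..x, gm η G C t) (gm η G C r) r

theorem Fam.deriv_mem (F : Fam η G C) {c r : ℝ} (hc : c ∈ Icc (0 : ℝ) C) (hr : r ∈ Ioo (0 : ℝ) 1)
    (hd : DifferentiableAt ℝ (G c) r) : deriv (G c) r ∈ Icc (0 : ℝ) 1 := by
  have h1 : Tendsto (slope (G c) r) (𝓝[>] r) (𝓝 (deriv (G c) r)) :=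
    (hasDerivAt_iff_tendsto_slope.1 hd.hasDerivAt).mono_left (nhdsWithin_mono _ fun x hx => (ne_of_gt hx))
  have h2 : ∀ᶠ x in 𝓝[>] r, slope (G c) r x ∈ Icc (0 : ℝ) 1 := by
    filter_upwards [Ioo_mem_nhdsGT hr.2] with x hx
    have h3 := F.inc c hc r x hr.1.le hx.1.le hx.2.le
    have h4 : 0 < x - r := sub_pos.2 hx.1
    rw [slope_def_field]
    exact ⟨div_nonneg h3.1 h4.le, (div_le_one h4).2 h3.2⟩
  exact isClosed_Icc.mem_of_tendsto h1 h2

theorem gm_intervalIntegrable (F : Fam η G C) (a b : ℝ) : IntervalIntegrable (gm η G C) volume a b := by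
  refine (intervalIntegrable_const (c := (1 : ℝ))).mono_fun measurable_gm.aestronglyMeasurable ?_
  filter_upwards with x
  rw [Real.norm_eq_abs, abs_of_nonneg (gm_nonneg x), norm_one]
  exact F.gm_le_one x

/-- almost every level is good -/
theorem Fam.ae_good (F : Fam η G C) : ∀ᵐ r, r ∈ Ioo (0 : ℝ) 1 → Good η G C r := by
  have h1 : ∀ᵐ r : ℝ, ∀ q : ℚ, (q : ℝ) ∈ Icc (0 : ℝ) C → r ∈ Icc (0 : ℝ) 1 →
      DifferentiableWithinAt ℝ (G q) (Icc 0 1) r := by
    rw [ae_all_iff]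
    intro q
    by_cases hq : (q : ℝ) ∈ Icc (0 : ℝ) C
    · filter_upwards [(F.mono_G hq).ae_differentiableWithinAt_of_mem] with r hr _ hr2
      exact hr hr2
    · filter_upwards with r h
      exact absurd h hq
  have h2 := (gm_intervalIntegrable F 0 1).ae_hasDerivAt_integral
  rw [uIcc_of_le zero_le_one] at h2
  filter_upwards [h1, h2] with r a1 a2 hr
  refine ⟨hr, fun q hq => ?_, a2 ⟨hr.1.le, hr.2.le⟩ 0 ⟨le_rfl, zero_le_one⟩⟩
  exact (a1 q hq ⟨hr.1.le, hr.2.le⟩).differentiableAt (Icc_mem_nhds hr.1 hr.2)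

/-- the density `gm` bounds the increments of `G c` from below, after the level of `c` -/
theorem Fam.int_gm_le (F : Fam η G C) {c x y : ℝ} (hc : c ∈ Icc (0 : ℝ) C) (hx : η c < x) (hxy : x ≤ y)
    (hy : y ≤ 1) : ∫ t in x..y, gm η G C t ≤ G c y - G c x := by
  have hx0 : 0 < x := by
    have := F.mono F.zero_mem hc hc.1
    rw [F.η0] at this
    exact this.trans_lt hx
  have hx1 : x ≤ 1 := hxy.trans hy
  obtain ⟨q, hq1, hq2⟩ := exists_rat_btwn ((F.η_lt_iff hx1 hc).1 hx)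
  have hq : (q : ℝ) ∈ Icc (0 : ℝ) C := ⟨hc.1.trans hq1.le, hq2.le.trans (F.crit_mem hx1).2⟩
  have hqx : η q < x := (F.η_lt_iff hx1 hq).2 hq2
  refine le_trans ?_ (F.anti c hc q hq hq1.le x y hx0.le hxy hy)
  have hL : LipschitzOnWith 1 (G q) (uIcc x y) := by
    rw [uIcc_of_le hxy]
    exact (F.lip_G hq).mono (Icc_subset_Icc hx0.le hy)
  have hac := hL.absolutelyContinuousOnInterval
  rw [← hac.integral_deriv_eq_sub]
  refine intervalIntegral.integral_mono_ae_restrict hxy (gm_intervalIntegrable F x y)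
    hac.intervalIntegrable_deriv ?_
  have h1 := (F.mono_G hq).ae_differentiableWithinAt_of_mem
  have h3 : ∀ᵐ t : ℝ, t ≠ 1 := by simp [ae_iff, measure_singleton]
  rw [Filter.EventuallyLE, ae_restrict_iff' measurableSet_Icc]
  filter_upwards [h1, h3] with t ht ht1 htm
  have htI : t ∈ Ioo (0 : ℝ) 1 := ⟨hx0.trans_le htm.1, lt_of_le_of_ne (htm.2.trans hy) ht1⟩
  have hd := (ht ⟨htI.1.le, htI.2.le⟩).differentiableAt (Icc_mem_nhds htI.1 htI.2)
  have hm := F.deriv_mem hq htI hd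
  refine (gm_le hq (hqx.trans_le htm.1)).trans ?_
  rw [min_eq_right hm.2, max_eq_right hm.1]

/-- windows which nearly realise `gm` -/
theorem Fam.exists_q (F : Fam η G C) {r ε : ℝ} (hr : 0 < r) (hε : 0 < ε) :
    ∃ q : ℚ, (q : ℝ) ∈ Icc (0 : ℝ) C ∧ η q < r ∧ max 0 (min 1 (deriv (G q) r)) ≤ gm η G C r + ε := by
  have := F.ne
  rcases lt_or_ge (gm η G C r) 1 with h | h
  · obtain ⟨q, hq⟩ := exists_lt_of_ciInf_lt (lt_min h (lt_add_of_pos_right (gm η G C r) hε) :
      (⨅ q : {q : ℚ // (q : ℝ) ∈ Icc (0 : ℝ) C}, if η q.1 < r then max 0 (min 1 (deriv (G q.1) r)) else 1) <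
        min 1 (gm η G C r + ε))
    by_cases h1 : η q.1 < r
    · rw [if_pos h1] at hq
      exact ⟨q.1, q.2, h1, (hq.trans_le (min_le_right _ _)).le⟩
    · rw [if_neg h1] at hq
      exact absurd (hq.trans_le (min_le_left _ _)) (lt_irrefl _)
  · refine ⟨0, by simp [F.hC.le], by simpa [F.η0] using hr, ?_⟩
    have : max 0 (min 1 (deriv (G ((0 : ℚ) : ℝ)) r)) ≤ (1 : ℝ) := max_le zero_le_one (min_le_left _ _)
    linarith

/-- **THE LIMIT OF THE DENSITIES AT A GOOD LEVEL.** Windows `c j` which do not know the level `r + a e` and tend to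
`crit r`: the digits between `r + a e` and `r + b e` have the density `gm r`. -/
theorem Good.top_lim (F : Fam η G C) {r : ℝ} (hr : Good η G C r) {α : Type*} {l : Filter α} {c e : α → ℝ} {a b : ℝ}
    (hab : a < b) (he : Tendsto e l (𝓝 0)) (hpos : ∀ᶠ j in l, 0 < e j) (hc : ∀ᶠ j in l, c j ∈ Icc (0 : ℝ) C)
    (h1 : ∀ᶠ j in l, η (c j) < r + a * e j) (h2 : ∀ q ∈ Icc (0 : ℝ) C, η q < r → ∀ᶠ j in l, q ≤ c j) :
    Tendsto (fun j => (G (c j) (r + b * e j) - G (c j) (r + a * e j)) / e j) l (𝓝 (gm η G C r * (b - a))) := by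
  have hr0 := hr.mem
  have hev : ∀ x : ℝ, ∀ᶠ j in l, r + x * e j ∈ Ioo (0 : ℝ) 1 := by
    intro x
    have : Tendsto (fun j => r + x * e j) l (𝓝 r) := by simpa using (he.const_mul x).const_add r
    exact this.eventually (Ioo_mem_nhds hr0.1 hr0.2)
  have hlow := incr_tendsto hr.leb he hpos a b
  refine tendsto_order.2 ⟨fun y hy => ?_, fun y hy => ?_⟩
  · filter_upwards [(tendsto_order.1 hlow).1 y hy, hev a, hev b, hpos, hc, h1] with j k1 k2 k3 k4 k5 k6
    refine k1.trans_le ?_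
    have k7 : r + a * e j ≤ r + b * e j := by nlinarith
    have k8 := F.int_gm_le k5 k6 k7 k3.2.le
    rw [intervalIntegral.integral_interval_sub_left (gm_intervalIntegrable F _ _) (gm_intervalIntegrable F _ _)]
    gcongr
  · set ε := (y - gm η G C r * (b - a)) / (2 * (b - a)) with hεd
    have hba : 0 < b - a := sub_pos.2 hab
    have hε : 0 < ε := div_pos (sub_pos.2 hy) (by positivity)
    obtain ⟨q, hq1, hq2, hq3⟩ := F.exists_q hr0.1 hε
    have hd := hr.diff q hq1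
    have hm := F.deriv_mem hq1 hr0 hd
    rw [min_eq_right hm.2, max_eq_right hm.1] at hq3
    have hup := incr_tendsto hd.hasDerivAt he hpos a b
    have hlt : deriv (G q) r * (b - a) < y := by
      have h4 : deriv (G q) r * (b - a) ≤ (gm η G C r + ε) * (b - a) := mul_le_mul_of_nonneg_right hq3 hba.le
      have h5 : ε * (b - a) = (y - gm η G C r * (b - a)) / 2 := by
        rw [hεd]; field_simp
      nlinarith
    filter_upwards [(tendsto_order.1 hup).2 y hlt, hev a, hev b, hpos, hc, h2 q hq1 hq2] with j k1 k2 k3 k4 k5 k6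
    refine lt_of_le_of_lt ?_ k1
    have k7 : r + a * e j ≤ r + b * e j := by nlinarith
    have k8 := F.anti q hq1 (c j) k5 k6 _ _ k2.1.le k7 k3.2.le
    gcongr

/-- the same when the windows know at most the level `r + a e + o(e)` -/
theorem Good.top_lim' (F : Fam η G C) {r : ℝ} (hr : Good η G C r) {α : Type*} {l : Filter α} {c e : α → ℝ} {a b : ℝ}
    (hab : a ≤ b) (he : Tendsto e l (𝓝 0)) (hpos : ∀ᶠ j in l, 0 < e j) (hc : ∀ᶠ j in l, c j ∈ Icc (0 : ℝ) C)
    (h1 : ∀ a' > a, ∀ᶠ j in l, η (c j) < r + a' * e j) (h2 : ∀ q ∈ Icc (0 : ℝ) C, η q < r → ∀ᶠ j in l, q ≤ c j) :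
    Tendsto (fun j => (G (c j) (r + b * e j) - G (c j) (r + a * e j)) / e j) l (𝓝 (gm η G C r * (b - a))) := by
  rcases hab.eq_or_lt with rfl | hab
  · simp only [sub_self, zero_div, mul_zero]
    exact tendsto_const_nhds
  have hr0 := hr.mem
  have hev : ∀ x : ℝ, ∀ᶠ j in l, r + x * e j ∈ Ioo (0 : ℝ) 1 := by
    intro x
    have : Tendsto (fun j => r + x * e j) l (𝓝 r) := by simpa using (he.const_mul x).const_add r
    exact this.eventually (Ioo_mem_nhds hr0.1 hr0.2)
  have hg0 := gm_nonneg (η := η) (G := G) (C := C) r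
  have hg1 := F.gm_le_one r
  -- the part between `a` and `a'`
  have hsm : ∀ a' > a, ∀ᶠ j in l, 0 ≤ (G (c j) (r + a' * e j) - G (c j) (r + a * e j)) / e j ∧
      (G (c j) (r + a' * e j) - G (c j) (r + a * e j)) / e j ≤ a' - a := by
    intro a' ha'
    filter_upwards [hev a, hev a', hpos, hc] with j k1 k2 k3 k4
    have k5 := F.inc (c j) k4 (r + a * e j) (r + a' * e j) k1.1.le (by nlinarith) k2.2.le
    refine ⟨div_nonneg k5.1 k3.le, (div_le_iff₀ k3).2 (k5.2.trans (le_of_eq (by ring)))⟩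
  refine tendsto_order.2 ⟨fun y hy => ?_, fun y hy => ?_⟩
  · obtain ⟨a', ha', hab', hya⟩ : ∃ a', a < a' ∧ a' < b ∧ y < gm η G C r * (b - a') := by
      have hcont : Tendsto (fun x : ℝ => gm η G C r * (b - x)) (𝓝[>] a) (𝓝 (gm η G C r * (b - a))) :=
        tendsto_nhdsWithin_of_tendsto_nhds ((continuous_const.mul (continuous_const.sub continuous_id)).tendsto a)
      obtain ⟨x, hx1, hx2⟩ := ((tendsto_order.1 hcont).1 y hy |>.and (Ioo_mem_nhdsGT hab)).exists
      exact ⟨x, hx2.1, hx2.2, hx1⟩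
    have h3 := hr.top_lim F hab' he hpos hc (h1 a' ha') h2
    filter_upwards [(tendsto_order.1 h3).1 y hya, hsm a' ha'] with j k1 k2
    have : (G (c j) (r + b * e j) - G (c j) (r + a * e j)) / e j =
        (G (c j) (r + b * e j) - G (c j) (r + a' * e j)) / e j +
          (G (c j) (r + a' * e j) - G (c j) (r + a * e j)) / e j := by ring
    rw [this]
    linarith [k2.1]
  · obtain ⟨a', ha', hab', hya⟩ : ∃ a', a < a' ∧ a' < b ∧ gm η G C r * (b - a') + (a' - a) < y := by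
      have hcont : Tendsto (fun x : ℝ => gm η G C r * (b - x) + (x - a)) (𝓝[>] a)
          (𝓝 (gm η G C r * (b - a) + (a - a))) :=
        tendsto_nhdsWithin_of_tendsto_nhds (((continuous_const.mul (continuous_const.sub continuous_id)).add
          (continuous_id.sub continuous_const)).tendsto a)
      rw [sub_self, add_zero] at hcont
      obtain ⟨x, hx1, hx2⟩ := ((tendsto_order.1 hcont).2 y hy |>.and (Ioo_mem_nhdsGT hab)).exists
      exact ⟨x, hx2.1, hx2.2, hx1⟩
    have h3 := hr.top_lim F hab' he hpos hc (h1 a' ha') h2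
    have h4 : gm η G C r * (b - a') < y - (a' - a) := by linarith
    filter_upwards [(tendsto_order.1 h3).2 _ h4, hsm a' ha'] with j k1 k2
    have : (G (c j) (r + b * e j) - G (c j) (r + a * e j)) / e j =
        (G (c j) (r + b * e j) - G (c j) (r + a' * e j)) / e j +
          (G (c j) (r + a' * e j) - G (c j) (r + a * e j)) / e j := by ring
    rw [this]
    linarith [k2.2]

/-- **MANY DEFICIENT LEVELS.** The density `gm` is at most `G 0 1 - G 0 0` on a set of levels of positive measure; in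
particular every almost sure property of levels holds at one of them. -/
theorem Fam.exists_deficient (F : Fam η G C) {Q : ℝ → Prop} (hQ : ∀ᵐ r, r ∈ Ioo (0 : ℝ) 1 → Q r) :
    ∃ r ∈ Ioo (0 : ℝ) 1, Good η G C r ∧ Q r ∧ gm η G C r ≤ G 0 1 - G 0 0 := by
  by_contra hno
  push Not at hno
  have h1 : ∀ᵐ r, r ∈ Ioo (0 : ℝ) 1 → G 0 1 - G 0 0 < gm η G C r := by
    filter_upwards [F.ae_good, hQ] with r a1 a2 hr
    exact hno r hr (a1 hr) (a2 hr)
  -- the integral of `gm` is at most `G 0 1 - G 0 0`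
  have h2 : ∫ t in (0 : ℝ)..1, gm η G C t ≤ G 0 1 - G 0 0 := by
    have hc : ContinuousWithinAt (fun x => ∫ t in x..(1 : ℝ), gm η G C t) (Ici 0) 0 := by
      have : Continuous (fun x => ∫ t in x..(1 : ℝ), gm η G C t) := by
        have h3 : (fun x => ∫ t in x..(1 : ℝ), gm η G C t) = fun x => -∫ t in (1 : ℝ)..x, gm η G C t := by
          funext x; rw [intervalIntegral.integral_symm]
        rw [h3]
        exact (intervalIntegral.continuous_primitive (fun a b => gm_intervalIntegrable F a b) 1).neg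
      exact this.continuousWithinAt
    have h4 : Tendsto (fun x => ∫ t in x..(1 : ℝ), gm η G C t) (𝓝[>] 0) (𝓝 (∫ t in (0 : ℝ)..1, gm η G C t)) :=
      hc.mono_left (nhdsWithin_mono _ Ioi_subset_Ici_self)
    refine le_of_tendsto h4 ?_
    filter_upwards [Ioo_mem_nhdsGT (zero_lt_one' ℝ)] with x hx
    have h5 := F.int_gm_le F.zero_mem (x := x) (y := 1) (by rw [F.η0]; exact hx.1) hx.2.le le_rfl
    have h6 := F.inc 0 F.zero_mem 0 x le_rfl hx.1.le hx.2.le
    linarith [h6.1]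
  have h3 : ∫ t in (0 : ℝ)..1, (G 0 1 - G 0 0) < ∫ t in (0 : ℝ)..1, gm η G C t := by
    refine intervalIntegral.integral_lt_integral_of_ae_le_of_measure_setOfPred_lt_ne_zero zero_le_one
      intervalIntegrable_const (gm_intervalIntegrable F 0 1) ?_ ?_
    · have h3 : ∀ᵐ t : ℝ, t ≠ 1 := by simp [ae_iff, measure_singleton]
      rw [Filter.EventuallyLE, ae_restrict_iff' measurableSet_Ioc]
      filter_upwards [h1, h3] with r hr hr1 hm
      exact (hr ⟨hm.1, lt_of_le_of_ne hm.2 hr1⟩).le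
    · have h4 : volume.restrict (Ioc (0 : ℝ) 1) {x | G 0 1 - G 0 0 < gm η G C x} = 1 := by
        have h5 : ∀ᵐ t ∂(volume.restrict (Ioc (0 : ℝ) 1)), t ∈ {x | G 0 1 - G 0 0 < gm η G C x} := by
          rw [ae_restrict_iff' measurableSet_Ioc]
          have h3 : ∀ᵐ t : ℝ, t ≠ 1 := by simp [ae_iff, measure_singleton]
          filter_upwards [h1, h3] with r hr hr1 hm
          exact hr ⟨hm.1, lt_of_le_of_ne hm.2 hr1⟩
        rw [measure_eq_measure_of_null_sdiff (t := univ) (subset_univ _) ?_]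
        · simp
        · rw [← compl_eq_univ_sdiff]
          exact h5
      rw [h4]
      exact one_ne_zero
  rw [intervalIntegral.integral_const, sub_zero, one_smul] at h3
  linarith

end Pool.Agent.Helper75.MX
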