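import Pool.Agent.Helper75.MX.Typ
import Pool.Agent.Helper30.TYP.Typ

/-! TYPICAL POINTS IN THE LEVEL OF THE TOP COORDINATE, part 2: speeds, jumps, and the version for almost every
window. -/

set_option autoImplicit false

namespace Pool.Agent.Helper75.MX

open MeasureTheory Set Filter Topology

variable {η : ℝ → ℝ} {G : ℝ → ℝ → ℝ} {C : ℝ}

/-- monotone functions of the window, read at `crit`, are differentiable at almost every level -/
theorem Fam.ae_diff (F : Fam η G C) {L : ℝ → ℝ} (hL : MonotoneOn L (Icc 0 C)) :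
    ∀ᵐ r, r ∈ Ioo (0 : ℝ) 1 → DifferentiableAt ℝ (fun x => L (crit η C x)) r := by
  have hm : MonotoneOn (fun x => L (crit η C x)) (Ioo 0 1) := fun a ha b hb hab =>
    hL (F.crit_mem ha.2.le) (F.crit_mem hb.2.le) (F.crit_mono ha.2.le hb.2.le hab)
  filter_upwards [hm.ae_differentiableWithinAt_of_mem] with r hr hr0
  exact (hr hr0).differentiableAt (Ioo_mem_nhds hr0.1 hr0.2)

theorem Fam.ae_diff_crit (F : Fam η G C) : ∀ᵐ r, r ∈ Ioo (0 : ℝ) 1 → DifferentiableAt ℝ (crit η C) r :=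
  F.ae_diff (L := fun c => c) fun _ _ _ _ h => h

/-- **FINITE SPEED, 1.** If `crit` has a positive derivative at `r`, the window `c₀ = crit r` knows exactly the level
`r`, and `c₀` is an inner window -/
theorem Fam.crit_inner (F : Fam η G C) {r k : ℝ} (hr : r ∈ Ioo (0 : ℝ) 1) (hk : 0 < k)
    (hd : HasDerivAt (crit η C) k r) : crit η C r ∈ Ioo 0 C ∧ η (crit η C r) = r := by
  have hgt : ∀ᶠ x in 𝓝[>] r, crit η C r < crit η C x := by
    have h1 : Tendsto (slope (crit η C) r) (𝓝[>] r) (𝓝 k) :=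
      (hasDerivAt_iff_tendsto_slope.1 hd).mono_left (nhdsWithin_mono _ fun x hx => (ne_of_gt hx))
    filter_upwards [(tendsto_order.1 h1).1 0 hk, self_mem_nhdsWithin] with x hx hx2
    rw [slope_def_field, lt_div_iff₀ (sub_pos.2 hx2), zero_mul, sub_pos] at hx
    exact hx
  have hcm := F.crit_mem hr.2.le
  refine ⟨⟨F.crit_pos hr.1 hr.2.le, ?_⟩, ?_⟩
  · obtain ⟨x, hx1, hx2⟩ := (hgt.and (Ioo_mem_nhdsGT hr.2)).exists
    exact hx1.trans_le (F.crit_mem hx2.2.le).2
  · refine le_antisymm ?_ (F.le_η_crit hr.2.le)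
    have h1 : Tendsto (fun x : ℝ => x) (𝓝[>] r) (𝓝 r) := tendsto_nhdsWithin_of_tendsto_nhds tendsto_id
    refine ge_of_tendsto h1 ?_
    filter_upwards [hgt, Ioo_mem_nhdsGT hr.2] with x hx hx2
    exact ((F.η_lt_iff hx2.2.le hcm).2 hx).le

/-- **FINITE SPEED, 2.** Windows near `crit r` lie between two values of `crit` -/
theorem sandwich {r k δ : ℝ} (hr : r ∈ Ioo (0 : ℝ) 1) (hk : 0 < k)
    (hd : HasDerivAt (crit η C) k r) (hδ : 0 < δ) (hδ1 : δ ≤ 1) :
    ∀ᶠ c in 𝓝 (crit η C r), ∀ x : ℝ, c = crit η C r + k * x → x ≠ 0 →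
      (r + (x - δ * |x|) ∈ Ioo (0 : ℝ) 1 ∧ crit η C (r + (x - δ * |x|)) < c) ∧
      (r + (x + δ * |x|) ∈ Ioo (0 : ℝ) 1 ∧ c < crit η C (r + (x + δ * |x|))) := by
  rw [hasDerivAt_iff_isLittleO, Asymptotics.isLittleO_iff] at hd
  have h1 := hd (show 0 < k * δ / 4 by positivity)
  rw [Metric.eventually_nhds_iff] at h1
  obtain ⟨d, hd0, h2⟩ := h1
  obtain ⟨d', hd'0, hd'1⟩ : ∃ d' > 0, Metric.ball r d' ⊆ Ioo 0 1 := Metric.mem_nhds_iff.1 (Ioo_mem_nhds hr.1 hr.2)
  have hm0 : 0 < min d d' := lt_min hd0 hd'0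
  have hev : ∀ᶠ c in 𝓝 (crit η C r), |c - crit η C r| < k * min d d' / 2 := by
    filter_upwards [Metric.ball_mem_nhds (crit η C r) (show 0 < k * min d d' / 2 by positivity)] with c hc
    rwa [Metric.mem_ball, Real.dist_eq] at hc
  filter_upwards [hev] with c hc x hcx h0
  set X := |x| with hX
  have hX0 : 0 < X := abs_pos.2 h0
  have hxabs : X < min d d' / 2 := by
    have h3 : |c - crit η C r| = k * X := by rw [hcx, add_sub_cancel_left, abs_mul, abs_of_pos hk]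
    rw [h3] at hc
    have : k * X < k * (min d d' / 2) := by linarith
    exact lt_of_mul_lt_mul_left this hk.le
  have hδX : 0 ≤ δ * X := by positivity
  have hδX' : δ * X ≤ X := by nlinarith
  have hest : ∀ y : ℝ, |y| ≤ X + δ * X → r + y ∈ Ioo (0 : ℝ) 1 ∧
      |crit η C (r + y) - crit η C r - k * y| < k * (δ * X) := by
    intro y hy
    have h3 : |y| < min d d' := by linarith
    refine ⟨hd'1 ?_, ?_⟩
    · rw [Metric.mem_ball, Real.dist_eq, add_sub_cancel_left]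
      exact h3.trans_le (min_le_right _ _)
    · have h4 := h2 (y := r + y) (by
        rw [Real.dist_eq, add_sub_cancel_left]; exact h3.trans_le (min_le_left _ _))
      rw [add_sub_cancel_left, Real.norm_eq_abs, Real.norm_eq_abs, smul_eq_mul, mul_comm y k] at h4
      refine h4.trans_lt ?_
      have h5 : k * δ / 4 * |y| ≤ k * δ / 4 * (X + δ * X) := mul_le_mul_of_nonneg_left hy (by positivity)
      have h6 : 0 < k * δ * X := by positivity
      nlinarith
  constructor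
  · have hy : |x - δ * X| ≤ X + δ * X := by
      refine (abs_sub _ _).trans ?_
      rw [abs_of_nonneg hδX]
    obtain ⟨h3, h4⟩ := hest _ hy
    refine ⟨h3, ?_⟩
    have h5 := (abs_lt.1 h4).2
    rw [hcx]
    linarith
  · have hy : |x + δ * X| ≤ X + δ * X := by
      refine (abs_add_le _ _).trans ?_
      rw [abs_of_nonneg hδX]
    obtain ⟨h3, h4⟩ := hest _ hy
    refine ⟨h3, ?_⟩
    have h5 := (abs_lt.1 h4).1
    rw [hcx]
    linarith

/-- **FINITE SPEED, 3.** A monotone function `L` of the window whose reading `L (crit r)` has the derivative `y` has the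
derivative `y / k` at the window `crit r` -/
theorem Fam.hasDeriv_L (F : Fam η G C) {r k y : ℝ} {L : ℝ → ℝ} (hL : MonotoneOn L (Icc 0 C)) (hr : r ∈ Ioo (0 : ℝ) 1)
    (hk : 0 < k) (hd : HasDerivAt (crit η C) k r) (hy : HasDerivAt (fun x => L (crit η C x)) y r) :
    HasDerivAt L (y / k) (crit η C r) := by
  have hin := (F.crit_inner hr hk hd).1
  have hy0 : 0 ≤ y := by
    have h1 : Tendsto (slope (fun x => L (crit η C x)) r) (𝓝[>] r) (𝓝 y) :=
      (hasDerivAt_iff_tendsto_slope.1 hy).mono_left (nhdsWithin_mono _ fun x hx => (ne_of_gt hx))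
    refine ge_of_tendsto h1 ?_
    filter_upwards [Ioo_mem_nhdsGT hr.2] with x hx
    rw [slope_def_field]
    refine div_nonneg (sub_nonneg.2 ?_) (sub_nonneg.2 hx.1.le)
    exact hL (F.crit_mem hr.2.le) (F.crit_mem hx.2.le) (F.crit_mono hr.2.le hx.2.le hx.1.le)
  rw [hasDerivAt_iff_isLittleO, Asymptotics.isLittleO_iff]
  intro ε hε
  obtain ⟨δ, hδ, hδ1, hδ2⟩ : ∃ δ : ℝ, 0 < δ ∧ δ ≤ 1 ∧ (y + 2) * δ ≤ ε * k := by
    refine ⟨min 1 (ε * k / (y + 2)), lt_min one_pos (by positivity), min_le_left _ _, ?_⟩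
    calc (y + 2) * min 1 (ε * k / (y + 2)) ≤ (y + 2) * (ε * k / (y + 2)) :=
          mul_le_mul_of_nonneg_left (min_le_right _ _) (by linarith)
      _ = ε * k := by field_simp
  have hs := sandwich hr hk hd hδ hδ1
  have hy2 := hy
  rw [hasDerivAt_iff_isLittleO, Asymptotics.isLittleO_iff] at hy2
  have h1 := hy2 hδ
  -- pull the estimate of the reading back to windows
  rw [Metric.eventually_nhds_iff] at h1
  obtain ⟨d, hd0, h2⟩ := h1
  have hev : ∀ᶠ c in 𝓝 (crit η C r), |c - crit η C r| < k * d / 2 ∧ c ∈ Icc (0 : ℝ) C := by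
    filter_upwards [Metric.ball_mem_nhds (crit η C r) (show 0 < k * d / 2 by positivity), Icc_mem_nhds hin.1 hin.2]
      with c hc hc2
    rw [Metric.mem_ball, Real.dist_eq] at hc
    exact ⟨hc, hc2⟩
  filter_upwards [hs, hev] with c hc hc2
  set x := (c - crit η C r) / k with hx
  have hcx : c = crit η C r + k * x := by rw [hx]; field_simp; ring
  rcases eq_or_ne x 0 with h0 | h0
  · have : c = crit η C r := by rw [hcx, h0, mul_zero, add_zero]
    rw [this]; simp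
  obtain ⟨⟨k1, k2⟩, k3, k4⟩ := hc x hcx h0
  set X := |x| with hX
  have hX0 : 0 < X := abs_pos.2 h0
  have hcX : |c - crit η C r| = k * X := by rw [hcx, add_sub_cancel_left, abs_mul, abs_of_pos hk]
  have hXd : X < d / 2 := by
    have h3 := hc2.1
    rw [hcX] at h3
    have : k * X < k * (d / 2) := by linarith
    exact lt_of_mul_lt_mul_left this hk.le
  have hδX : 0 ≤ δ * X := by positivity
  have hδX' : δ * X ≤ X := by nlinarith
  have hest : ∀ z : ℝ, |z| ≤ X + δ * X → |L (crit η C (r + z)) - L (crit η C r) - y * z| ≤ δ * (2 * X) := by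
    intro z hz
    have h4 := h2 (y := r + z) (by rw [Real.dist_eq, add_sub_cancel_left]; linarith)
    rw [add_sub_cancel_left, Real.norm_eq_abs, Real.norm_eq_abs, smul_eq_mul, mul_comm z y] at h4
    exact h4.trans (mul_le_mul_of_nonneg_left (by linarith) hδ.le)
  have hz1 : |x - δ * X| ≤ X + δ * X := by
    refine (abs_sub _ _).trans ?_
    rw [abs_of_nonneg hδX]
  have hz2 : |x + δ * X| ≤ X + δ * X := by
    refine (abs_add_le _ _).trans ?_
    rw [abs_of_nonneg hδX]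
  have hlo : L (crit η C (r + (x - δ * X))) ≤ L c := hL (F.crit_mem k1.2.le) hc2.2 k2.le
  have hhi : L c ≤ L (crit η C (r + (x + δ * X))) := hL hc2.2 (F.crit_mem k3.2.le) k4.le
  have e1 := (abs_le.1 (hest _ hz1)).1
  have e2 := (abs_le.1 (hest _ hz2)).2
  have hxk : (c - crit η C r) * (y / k) = y * x := by rw [hx]; field_simp
  rw [smul_eq_mul, hxk, Real.norm_eq_abs, Real.norm_eq_abs, hcX]
  have h8 : (y + 2) * δ * X ≤ ε * k * X := mul_le_mul_of_nonneg_right hδ2 hX0.le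
  rw [abs_le]
  constructor <;> nlinarith

/-- **FINITE SPEED.** If `crit` has the positive derivative `k` at `r`, then `η` has the derivative `k⁻¹` at `crit r`. -/
theorem Fam.hasDeriv_η (F : Fam η G C) {r k : ℝ} (hr : r ∈ Ioo (0 : ℝ) 1) (hk : 0 < k)
    (hd : HasDerivAt (crit η C) k r) : HasDerivAt η k⁻¹ (crit η C r) := by
  obtain ⟨hin, hηr⟩ := F.crit_inner hr hk hd
  rw [hasDerivAt_iff_isLittleO, Asymptotics.isLittleO_iff]
  intro ε hε
  obtain ⟨δ, hδ, hδ1, hδ2⟩ : ∃ δ : ℝ, 0 < δ ∧ δ ≤ 1 ∧ δ ≤ ε * k :=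
    ⟨min 1 (ε * k), lt_min one_pos (by positivity), min_le_left _ _, min_le_right _ _⟩
  filter_upwards [sandwich hr hk hd hδ hδ1, Icc_mem_nhds hin.1 hin.2] with c hc hcI
  set x := (c - crit η C r) / k with hx
  have hcx : c = crit η C r + k * x := by rw [hx]; field_simp; ring
  rcases eq_or_ne x 0 with h0 | h0
  · have : c = crit η C r := by rw [hcx, h0, mul_zero, add_zero]
    rw [this]; simp
  obtain ⟨⟨k1, k2⟩, k3, k4⟩ := hc x hcx h0
  set X := |x| with hX
  have hX0 : 0 < X := abs_pos.2 h0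
  have hcX : |c - crit η C r| = k * X := by rw [hcx, add_sub_cancel_left, abs_mul, abs_of_pos hk]
  have e1 := F.le_η k1.2.le hcI k2
  have e2 := (F.η_lt_iff k3.2.le hcI).2 k4
  have hxk : (c - crit η C r) * k⁻¹ = x := by rw [hx, div_eq_mul_inv]
  rw [hηr, smul_eq_mul, hxk, Real.norm_eq_abs, Real.norm_eq_abs, hcX]
  have h8 : δ * X ≤ ε * k * X := mul_le_mul_of_nonneg_right hδ2 hX0.le
  rw [abs_le]
  constructor <;> nlinarith

/-! ### jumps -/

/-- at almost every level a monotone function is either locally constant or increases strictly on both sides -/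
theorem ae_flat_or_strict {f : ℝ → ℝ} (hf : MonotoneOn f (Ioo 0 1)) :
    ∀ᵐ r, r ∈ Ioo (0 : ℝ) 1 → (∀ᶠ x in 𝓝 r, f x = f r) ∨
      ((∀ x ∈ Ioo (0 : ℝ) r, f x < f r) ∧ ∀ x ∈ Ioo r 1, f r < f x) := by
  -- right flat and not left flat points form a countable set, and symmetrically
  have key : ∀ g : ℝ → ℝ, MonotoneOn g (Ioo 0 1) →
      {r | r ∈ Ioo (0 : ℝ) 1 ∧ (∃ x ∈ Ioo r 1, g x = g r) ∧ ∀ x ∈ Ioo (0 : ℝ) r, g x < g r}.Countable := by
    intro g hg
    set A := {r | r ∈ Ioo (0 : ℝ) 1 ∧ (∃ x ∈ Ioo r 1, g x = g r) ∧ ∀ x ∈ Ioo (0 : ℝ) r, g x < g r} with hA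
    have h1 : ∀ r ∈ A, ∃ q : ℚ, r < q ∧ (q : ℝ) < 1 ∧ g q = g r := by
      rintro r ⟨hr, ⟨x, hx, hgx⟩, -⟩
      obtain ⟨q, hq1, hq2⟩ := exists_rat_btwn hx.1
      have hqm : (q : ℝ) ∈ Ioo (0 : ℝ) 1 := ⟨hr.1.trans hq1, hq2.trans hx.2⟩
      have hxm : x ∈ Ioo (0 : ℝ) 1 := ⟨hr.1.trans hx.1, hx.2⟩
      exact ⟨q, hq1, hqm.2, le_antisymm ((hg hqm hxm hq2.le).trans hgx.le) (hg hr hqm hq1.le)⟩
    choose! q hq using h1
    refine (Set.MapsTo.countable_of_injOn (f := q) (t := univ) (fun _ _ => mem_univ _) ?_ (Set.countable_univ))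
    intro r hr s hs hrs
    rcases lt_trichotomy r s with h | h | h
    · exfalso
      have h2 := hs.2.2 r ⟨hr.1.1, h⟩
      rw [← (hq r hr).2.2, ← (hq s hs).2.2, hrs] at h2
      exact lt_irrefl _ h2
    · exact h
    · exfalso
      have h2 := hr.2.2 s ⟨hs.1.1, h⟩
      rw [← (hq r hr).2.2, ← (hq s hs).2.2, hrs] at h2
      exact lt_irrefl _ h2
  -- the symmetric statement
  have key2 : {r | r ∈ Ioo (0 : ℝ) 1 ∧ (∃ x ∈ Ioo (0 : ℝ) r, f x = f r) ∧ ∀ x ∈ Ioo r 1, f r < f x}.Countable := by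
    have h1 := key (fun x => -f (1 - x)) (fun a ha b hb hab =>
      neg_le_neg (hf ⟨by linarith [hb.2], by linarith [hb.1]⟩ ⟨by linarith [ha.2], by linarith [ha.1]⟩ (by linarith)))
    have h2 := h1.image (fun x => 1 - x)
    refine h2.mono ?_
    rintro r ⟨hr, ⟨x, hx, hfx⟩, h3⟩
    refine ⟨1 - r, ⟨⟨by linarith [hr.2], by linarith [hr.1]⟩, ⟨1 - x, ⟨by linarith [hx.2], by linarith [hx.1]⟩, ?_⟩,
      fun y hy => ?_⟩, by ring⟩
    · simp only [sub_sub_cancel, hfx]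
    · simp only [sub_sub_cancel]
      exact neg_lt_neg (h3 (1 - y) ⟨by linarith [hy.2], by linarith [hy.1]⟩)
  have hnull := (key f hf).ae_notMem volume
  have hnull2 := key2.ae_notMem volume
  filter_upwards [hnull, hnull2] with r h1 h2 hr
  by_cases hR : ∃ x ∈ Ioo r 1, f x = f r
  · by_cases hL : ∃ x ∈ Ioo (0 : ℝ) r, f x = f r
    · left
      obtain ⟨x, hx, hfx⟩ := hR
      obtain ⟨y, hy, hfy⟩ := hL
      have hxm : x ∈ Ioo (0 : ℝ) 1 := ⟨hr.1.trans hx.1, hx.2⟩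
      have hym : y ∈ Ioo (0 : ℝ) 1 := ⟨hy.1, hy.2.trans hr.2⟩
      filter_upwards [Ioo_mem_nhds hy.2 hx.1] with z hz
      have hzm : z ∈ Ioo (0 : ℝ) 1 := ⟨hy.1.trans hz.1, hz.2.trans hx.2⟩
      exact le_antisymm ((hf hzm hxm hz.2.le).trans hfx.le) (hfy.ge.trans (hf hym hzm hz.1.le))
    · exfalso
      refine h1 ⟨hr, hR, fun x hx => ?_⟩
      have hxm : x ∈ Ioo (0 : ℝ) 1 := ⟨hx.1, hx.2.trans hr.2⟩
      exact lt_of_le_of_ne (hf hxm hr hx.2.le) fun h => hL ⟨x, hx, h⟩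
  · have hR' : ∀ x ∈ Ioo r 1, f r < f x := fun x hx =>
      lt_of_le_of_ne (hf hr ⟨hr.1.trans hx.1, hx.2⟩ hx.1.le) fun h => hR ⟨x, hx, h.symm⟩
    right
    refine ⟨fun x hx => ?_, hR'⟩
    have hxm : x ∈ Ioo (0 : ℝ) 1 := ⟨hx.1, hx.2.trans hr.2⟩
    refine lt_of_le_of_ne (hf hxm hr hx.2.le) fun h => h2 ⟨hr, ⟨x, hx, h⟩, hR'⟩

/-- **A TOP LEVEL INSIDE A JUMP**: if the density of `g` on `[a,b]` is less than `1 - ρ`, there is a level `l` below
which the digits have at most this density, from every level -/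
theorem exists_top_level {g : ℝ → ℝ} {a b θ : ℝ} (hg : ContinuousOn g (Icc a b)) (hab : a < b)
    (h : g b - g a < θ * (b - a)) :
    ∃ l ∈ Ioc a b, ∀ x ∈ Icc a l, g l - g x ≤ θ * (l - x) := by
  have hc : ContinuousOn (fun x => g x - θ * x) (Icc a b) := hg.sub (by fun_prop)
  obtain ⟨l, hl, hmin⟩ := isCompact_Icc.exists_isMinOn ⟨a, left_mem_Icc.2 hab.le⟩ hc
  have h1 : ∀ x ∈ Icc a b, g l - θ * l ≤ g x - θ * x := fun x hx => hmin hx
  refine ⟨l, ⟨lt_of_le_of_ne hl.1 ?_, hl.2⟩, fun x hx => ?_⟩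
  · rintro rfl
    have := h1 b (right_mem_Icc.2 hab.le)
    nlinarith
  · have := h1 x ⟨hx.1, hx.2.trans hl.2⟩
    nlinarith

/-! ### levels which are TOP from every lower level -/

/-- running minima of a Lipschitz function which decreases from `0` to `1` have positive measure -/
theorem volume_runmin {φ : ℝ → ℝ} (hφ : LipschitzOnWith 1 φ (Icc 0 1)) (h : φ 1 < φ 0) :
    0 < volume {r | r ∈ Icc (0 : ℝ) 1 ∧ ∀ x ∈ Icc (0 : ℝ) r, φ r ≤ φ x} := by
  set R := {r | r ∈ Icc (0 : ℝ) 1 ∧ ∀ x ∈ Icc (0 : ℝ) r, φ r ≤ φ x} with hR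
  have himg : Ioo (φ 1) (φ 0) ⊆ φ '' R := by
    intro v hv
    set A := {r | r ∈ Icc (0 : ℝ) 1 ∧ φ r ≤ v} with hA
    have hAc : IsCompact A := by
      have : A = Icc (0 : ℝ) 1 ∩ φ ⁻¹' Iic v := rfl
      rw [this]
      exact isCompact_Icc.of_isClosed_subset
        (hφ.continuousOn.preimage_isClosed_of_isClosed isClosed_Icc isClosed_Iic) inter_subset_left
    have hAne : A.Nonempty := ⟨1, right_mem_Icc.2 zero_le_one, hv.1.le⟩
    obtain ⟨r, hr, hmin⟩ := hAc.exists_isLeast hAne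
    have h1 : ∀ x ∈ Icc (0 : ℝ) r, x ≠ r → v < φ x := by
      intro x hx hne
      by_contra hlt
      exact hne (le_antisymm hx.2 (hmin ⟨⟨hx.1, hx.2.trans hr.1.2⟩, not_lt.1 hlt⟩))
    have hr0 : r ≠ 0 := by
      rintro rfl
      exact absurd hr.2 (not_le.2 hv.2)
    have hrpos : 0 < r := lt_of_le_of_ne hr.1.1 (Ne.symm hr0)
    have h2 : φ r = v := by
      refine le_antisymm hr.2 ?_
      have hcw : ContinuousWithinAt φ (Icc 0 1) r := hφ.continuousOn r hr.1
      have h3 : Tendsto φ (𝓝[Ico 0 r] r) (𝓝 (φ r)) :=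
        hcw.mono_left (nhdsWithin_mono _ fun x hx => ⟨hx.1, hx.2.le.trans hr.1.2⟩)
      have : (𝓝[Ico 0 r] r).NeBot := by
        rw [nhdsWithin_Ico_eq_nhdsLT hrpos]
        infer_instance
      refine ge_of_tendsto h3 ?_
      filter_upwards [self_mem_nhdsWithin] with x hx
      exact (h1 x ⟨hx.1, hx.2.le⟩ hx.2.ne).le
    refine ⟨r, ⟨hr.1, fun x hx => ?_⟩, h2⟩
    rcases eq_or_ne x r with rfl | hne
    · exact le_rfl
    · rw [h2]; exact (h1 x hx hne).le
  have h3 := (hφ.mono (fun r hr => hr.1 : R ⊆ Icc 0 1)).hausdorffMeasure_image_le (d := 1) zero_le_one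
  rw [← hausdorffMeasure_real]
  have h4 : μH[1] (φ '' R) ≤ μH[1] R := by simpa using h3
  refine lt_of_lt_of_le ?_ h4
  refine lt_of_lt_of_le ?_ (measure_mono himg)
  rw [hausdorffMeasure_real, Real.volume_Ioo]
  exact ENNReal.ofReal_pos.2 (sub_pos.2 h)

theorem Fam.int_gm_total (F : Fam η G C) : ∫ t in (0 : ℝ)..1, gm η G C t ≤ G 0 1 - G 0 0 := by
  have hc : ContinuousWithinAt (fun x => ∫ t in x..(1 : ℝ), gm η G C t) (Ici 0) 0 := by
    have : Continuous (fun x => ∫ t in x..(1 : ℝ), gm η G C t) := by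
      have h3 : (fun x => ∫ t in x..(1 : ℝ), gm η G C t) = fun x => -∫ t in (1 : ℝ)..x, gm η G C t := by
        funext x; rw [intervalIntegral.integral_symm]
      rw [h3]
      exact (intervalIntegral.continuous_primitive (fun a b => gm_intervalIntegrable F a b) 1).neg
    exact this.continuousWithinAt
  have h4 : Tendsto (fun x => ∫ t in x..(1 : ℝ), gm η G C t) (𝓝[>] 0) (𝓝 (∫ t in (0 : ℝ)..1, gm η G C t)) :=
    hc.mono_left (nhdsWithin_mono _ Ioi_subset_Ici_self)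
  refine le_of_tendsto h4 ?_
  filter_upwards [Ioo_mem_nhdsGT (zero_lt_one' ℝ)] with x hx
  have h5 := F.int_gm_le F.zero_mem (x := x) (y := 1) (by rw [F.η0]; exact hx.1) hx.2.le le_rfl
  have h6 := F.inc 0 F.zero_mem 0 x le_rfl hx.1.le hx.2.le
  linarith [h6.1]

/-- **TYPICAL LEVELS WITH TOP.** Let `G 0 1 - G 0 0 < θ ≤ 1` (`1 - θ` less than the deficit). There is a good level `r`
with every almost sure property, such that the digits between `x` and `r` have the density at most `θ` (given the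
windows before), for EVERY `x < r`; in particular `gm r ≤ θ`. -/
theorem Fam.exists_typical (F : Fam η G C) {θ : ℝ} (hθ : G 0 1 - G 0 0 < θ) (hθ1 : θ ≤ 1) {Q : ℝ → Prop}
    (hQ : ∀ᵐ r, r ∈ Ioo (0 : ℝ) 1 → Q r) :
    ∃ r ∈ Ioo (0 : ℝ) 1, Good η G C r ∧ Q r ∧ (∀ x ∈ Icc (0 : ℝ) r, ∫ t in x..r, gm η G C t ≤ θ * (r - x)) ∧
      gm η G C r ≤ θ := by
  have hθ0 : 0 ≤ θ := (F.inc 0 F.zero_mem 0 1 le_rfl zero_le_one le_rfl).1.trans hθ.le
  set φ : ℝ → ℝ := fun x => (∫ t in (0 : ℝ)..x, gm η G C t) - θ * x with hφd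
  have hL : LipschitzOnWith 1 φ (Icc 0 1) := by
    refine (LipschitzWith.of_dist_le_mul fun a b => ?_).lipschitzOnWith
    rw [NNReal.coe_one, one_mul, Real.dist_eq, Real.dist_eq]
    have e1 : φ a - φ b = ∫ t in b..a, (gm η G C t - θ) := by
      rw [intervalIntegral.integral_sub (gm_intervalIntegrable F _ _) intervalIntegrable_const,
        intervalIntegral.integral_const, smul_eq_mul, hφd]
      have := intervalIntegral.integral_interval_sub_left (gm_intervalIntegrable F 0 a) (gm_intervalIntegrable F 0 b)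
      simp only
      rw [← this]
      ring
    rw [e1]
    have h2 := intervalIntegral.norm_integral_le_of_norm_le_const (a := b) (b := a) (C := 1)
      (f := fun t => gm η G C t - θ) (fun t _ => by
        rw [Real.norm_eq_abs, abs_le]
        have g0 := gm_nonneg (η := η) (G := G) (C := C) t
        have g1 := F.gm_le_one t
        constructor <;> linarith)
    rw [Real.norm_eq_abs, one_mul] at h2
    exact h2
  have h01 : φ 1 < φ 0 := by
    simp only [hφd, intervalIntegral.integral_same, mul_zero, sub_zero, mul_one]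
    linarith [F.int_gm_total]
  have hpos := volume_runmin hL h01
  have hall : ∀ᵐ r : ℝ, r ∈ Ioo (0 : ℝ) 1 → Good η G C r ∧ Q r := by
    filter_upwards [F.ae_good, hQ] with r a b hr
    exact ⟨a hr, b hr⟩
  have hne : ∀ᵐ r : ℝ, r ≠ 0 ∧ r ≠ 1 := by
    have h1 : ∀ᵐ r : ℝ, r ≠ 0 := by simp [ae_iff, measure_singleton]
    have h2 : ∀ᵐ r : ℝ, r ≠ 1 := by simp [ae_iff, measure_singleton]
    filter_upwards [h1, h2] with r a b using ⟨a, b⟩
  obtain ⟨r, hr, hr1, hr2⟩ : ∃ r, (r ∈ Icc (0 : ℝ) 1 ∧ ∀ x ∈ Icc (0 : ℝ) r, φ r ≤ φ x) ∧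
      (r ∈ Ioo (0 : ℝ) 1 → Good η G C r ∧ Q r) ∧ (r ≠ 0 ∧ r ≠ 1) := by
    by_contra hno
    push Not at hno
    have h0 : volume {r | r ∈ Icc (0 : ℝ) 1 ∧ ∀ x ∈ Icc (0 : ℝ) r, φ r ≤ φ x} = 0 := by
      refine measure_mono_null ?_ (ae_iff.1 (hall.and hne))
      intro r hr
      simp only [mem_ofPred_eq]
      intro h
      exact h.2.2 (hno r hr h.1 h.2.1)
    exact hpos.ne' h0
  have hrI : r ∈ Ioo (0 : ℝ) 1 := ⟨lt_of_le_of_ne hr.1.1 (Ne.symm hr2.1), lt_of_le_of_ne hr.1.2 hr2.2⟩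
  obtain ⟨hg, hq⟩ := hr1 hrI
  have htop : ∀ x ∈ Icc (0 : ℝ) r, ∫ t in x..r, gm η G C t ≤ θ * (r - x) := by
    intro x hx
    have h1 := hr.2 x hx
    simp only [hφd] at h1
    have := intervalIntegral.integral_interval_sub_left (gm_intervalIntegrable F 0 r) (gm_intervalIntegrable F 0 x)
    rw [← this]
    linarith
  refine ⟨r, hrI, hg, hq, htop, ?_⟩
  have h1 : Tendsto (slope (fun x => ∫ t in (0 : ℝ)..x, gm η G C t) r) (𝓝[<] r) (𝓝 (gm η G C r)) :=
    (hasDerivAt_iff_tendsto_slope.1 hg.leb).mono_left (nhdsWithin_mono _ fun x hx => (ne_of_lt hx))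
  refine le_of_tendsto h1 ?_
  filter_upwards [Ioo_mem_nhdsLT hrI.1] with x hx
  rw [slope_comm, slope_def_field, div_le_iff₀ (sub_pos.2 hx.2),
    intervalIntegral.integral_interval_sub_left (gm_intervalIntegrable F _ _) (gm_intervalIntegrable F _ _)]
  exact htop x ⟨hx.1.le, hx.2.le⟩

/-- **INSIDE A JUMP** the increments of `G c` tend to the integral of `gm` when `c` increases to the jump -/
theorem Fam.jump_lim (F : Fam η G C) {c₀ x y : ℝ} (hx : 0 ≤ x) (hxy : x < y) (hy : y ≤ 1)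
    (hflat : ∀ t ∈ Ioo x y, crit η C t = c₀) :
    (∀ c ∈ Icc (0 : ℝ) C, c < c₀ → ∫ t in x..y, gm η G C t ≤ G c y - G c x) ∧
    Tendsto (fun c => G c y - G c x) (𝓝[<] c₀) (𝓝 (∫ t in x..y, gm η G C t)) := by
  obtain ⟨m, hm⟩ : (Ioo x y).Nonempty := nonempty_Ioo.2 hxy
  have hm1 : m ≤ 1 := hm.2.le.trans hy
  have hc0 : 0 < c₀ := by rw [← hflat m hm]; exact F.crit_pos (hx.trans_lt hm.1) hm1
  have hcC : c₀ ≤ C := by rw [← hflat m hm]; exact (F.crit_mem hm1).2
  have hlt : ∀ c ∈ Icc (0 : ℝ) C, c < c₀ → ∀ t ∈ Ioo x y, η c < t := fun c hc hcc t ht =>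
    (F.η_lt_iff (ht.2.le.trans hy) hc).2 (by rw [hflat t ht]; exact hcc)
  -- lower bound
  have hlow : ∀ c ∈ Icc (0 : ℝ) C, c < c₀ → ∫ t in x..y, gm η G C t ≤ G c y - G c x := by
    intro c hc hcc
    have hcont : Continuous (fun s => ∫ t in s..y, gm η G C t) := by
      have h3 : (fun s => ∫ t in s..y, gm η G C t) = fun s => -∫ t in y..s, gm η G C t := by
        funext s; rw [intervalIntegral.integral_symm]
      rw [h3]
      exact (intervalIntegral.continuous_primitive (fun a b => gm_intervalIntegrable F a b) y).neg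
    have h4 : Tendsto (fun s => ∫ t in s..y, gm η G C t) (𝓝[>] x) (𝓝 (∫ t in x..y, gm η G C t)) :=
      hcont.continuousWithinAt
    refine le_of_tendsto h4 ?_
    filter_upwards [Ioo_mem_nhdsGT hxy] with s hs
    have h5 := F.int_gm_le hc (hlt c hc hcc s hs) hs.2.le hy
    have h6 := F.inc c hc x s hx hs.1.le (hs.2.le.trans hy)
    linarith [h6.1]
  refine ⟨hlow, ?_⟩
  -- rational windows
  obtain ⟨u, hu1, hu2, hu3⟩ := Real.exists_seq_rat_strictMono_tendsto c₀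
  have hu0 : ∀ᶠ n in atTop, (u n : ℝ) ∈ Icc (0 : ℝ) C := by
    filter_upwards [hu3.eventually (lt_mem_nhds hc0)] with n hn
    exact ⟨hn.le, (hu2 n).le.trans hcC⟩
  have hae : ∀ᵐ t : ℝ, t ∈ Ioo x y → Good η G C t := by
    filter_upwards [F.ae_good] with t ht ht2
    exact ht ⟨hx.trans_lt ht2.1, ht2.2.trans_le hy⟩
  have hdc : Tendsto (fun n => ∫ t in x..y, max 0 (min 1 (deriv (G (u n)) t))) atTop
      (𝓝 (∫ t in x..y, gm η G C t)) := by
    refine intervalIntegral.tendsto_integral_filter_of_dominated_convergence (fun _ => (1 : ℝ)) ?_ ?_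
      intervalIntegrable_const ?_
    · filter_upwards with n
      exact (measurable_const.max (measurable_const.min (measurable_deriv _))).aestronglyMeasurable
    · filter_upwards with n
      filter_upwards with t _
      rw [Real.norm_eq_abs, abs_of_nonneg (le_max_left _ _)]
      exact max_le zero_le_one (min_le_left _ _)
    · have hy' : ∀ᵐ t : ℝ, t ≠ y := by simp [ae_iff, measure_singleton]
      filter_upwards [hae, hy'] with t ht hty htm
      rw [uIoc_of_le hxy.le] at htm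
      have htI : t ∈ Ioo x y := ⟨htm.1, lt_of_le_of_ne htm.2 hty⟩
      have hgd := ht htI
      refine tendsto_order.2 ⟨fun v hv => ?_, fun v hv => ?_⟩
      · filter_upwards [hu0] with n hn
        exact hv.trans_le (gm_le hn (hlt _ hn (hu2 n) t htI))
      · obtain ⟨q, hq1, hq2, hq3⟩ := F.exists_q (hx.trans_lt htI.1) (half_pos (sub_pos.2 hv))
        have hqc : (q : ℝ) < c₀ := by
          rw [← hflat t htI]
          exact (F.η_lt_iff (htI.2.le.trans hy) hq1).1 hq2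
        filter_upwards [hu0, hu3.eventually (lt_mem_nhds hqc)] with n hn hn2
        have hd1 := hgd.diff q hq1
        have hd2 := hgd.diff (u n) hn
        have hm1 := F.deriv_mem hq1 hgd.mem hd1
        have hm2 := F.deriv_mem hn hgd.mem hd2
        have hle : deriv (G (u n)) t ≤ deriv (G q) t := by
          have t1 : Tendsto (slope (G (u n)) t) (𝓝[>] t) (𝓝 (deriv (G (u n)) t)) :=
            (hasDerivAt_iff_tendsto_slope.1 hd2.hasDerivAt).mono_left (nhdsWithin_mono _ fun x hx => (ne_of_gt hx))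
          have t2 : Tendsto (slope (G q) t) (𝓝[>] t) (𝓝 (deriv (G q) t)) :=
            (hasDerivAt_iff_tendsto_slope.1 hd1.hasDerivAt).mono_left (nhdsWithin_mono _ fun x hx => (ne_of_gt hx))
          refine le_of_tendsto_of_tendsto t1 t2 ?_
          filter_upwards [Ioo_mem_nhdsGT hgd.mem.2] with s hs
          have h3 := F.anti q hq1 (u n) hn hn2.le t s hgd.mem.1.le hs.1.le hs.2.le
          rw [slope_def_field, slope_def_field]
          exact div_le_div_of_nonneg_right h3 (sub_nonneg.2 hs.1.le)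
        rw [min_eq_right hm1.2, max_eq_right hm1.1] at hq3
        rw [min_eq_right hm2.2, max_eq_right hm2.1]
        linarith
  have hval : ∀ᶠ n in atTop, ∫ t in x..y, max 0 (min 1 (deriv (G (u n)) t)) = G (u n) y - G (u n) x := by
    filter_upwards [hu0] with n hn
    have hL : LipschitzOnWith 1 (G (u n)) (uIcc x y) := by
      rw [uIcc_of_le hxy.le]
      exact (F.lip_G hn).mono (Icc_subset_Icc hx hy)
    rw [← hL.absolutelyContinuousOnInterval.integral_deriv_eq_sub]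
    refine intervalIntegral.integral_congr_ae ?_
    have hy' : ∀ᵐ t : ℝ, t ≠ y := by simp [ae_iff, measure_singleton]
    filter_upwards [hae, hy'] with t ht hty htm
    rw [uIoc_of_le hxy.le] at htm
    have htI : t ∈ Ioo x y := ⟨htm.1, lt_of_le_of_ne htm.2 hty⟩
    have hm := F.deriv_mem hn (ht htI).mem ((ht htI).diff (u n) hn)
    rw [min_eq_right hm.2, max_eq_right hm.1]
  refine tendsto_order.2 ⟨fun v hv => ?_, fun v hv => ?_⟩
  · filter_upwards [Ioo_mem_nhdsLT hc0] with c hc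
    exact hv.trans_le (hlow c ⟨hc.1.le, hc.2.le.trans hcC⟩ hc.2)
  · obtain ⟨n, hn1, hn2, hn3⟩ := (((tendsto_order.1 hdc).2 v hv).and (hval.and hu0)).exists
    rw [hn2] at hn1
    filter_upwards [Ioo_mem_nhdsLT (hu2 n)] with c hc
    have hcm : c ∈ Icc (0 : ℝ) C := ⟨hn3.1.trans hc.1.le, hc.2.le.trans hcC⟩
    exact (F.anti (u n) hn3 c hcm hc.1.le x y hx hxy.le hy).trans_lt hn1

/-! ### almost every window -/

/-- **ALMOST EVERY WINDOW IS TYPICAL** when `η` expands -/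
theorem Fam.ae_windows (F : Fam η G C) (hsp : ∀ c ∈ Icc (0 : ℝ) C, ∀ c' ∈ Icc (0 : ℝ) C, c ≤ c' → c' - c ≤ η c' - η c)
    {ι : Type*} [Countable ι] {L : ι → ℝ → ℝ} (hL : ∀ i, MonotoneOn (L i) (Icc 0 C)) {Q : ℝ → Prop}
    (hQ : ∀ᵐ r, r ∈ Ioo (0 : ℝ) 1 → Q r) :
    ∀ᵐ c, c ∈ Ioo (0 : ℝ) C → η c ∈ Ioo (0 : ℝ) 1 ∧ Good η G C (η c) ∧ Q (η c) ∧ (∃ w, 1 ≤ w ∧ HasDerivAt η w c) ∧
      ∀ i, ∃ w, 0 ≤ w ∧ HasDerivAt (L i) w c := by
  have hall : ∀ᵐ r : ℝ, r ∈ Ioo (0 : ℝ) 1 → Good η G C r ∧ Q r := by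
    filter_upwards [F.ae_good, hQ] with r a b hr
    exact ⟨a hr, b hr⟩
  have h1 := Helper30.TYP.ae_pull (η := η) (u := 0) (v := C) (fun c hc c' hc' hcc =>
    hsp c ⟨hc.1.le, hc.2.le⟩ c' ⟨hc'.1.le, hc'.2.le⟩ hcc.le) hall
  have h2 : ∀ᵐ c : ℝ, c ∈ Icc (0 : ℝ) C → DifferentiableWithinAt ℝ η (Icc 0 C) c :=
    F.mono.ae_differentiableWithinAt_of_mem
  have h3 : ∀ᵐ c : ℝ, ∀ i, c ∈ Icc (0 : ℝ) C → DifferentiableWithinAt ℝ (L i) (Icc 0 C) c :=
    ae_all_iff.2 fun i => (hL i).ae_differentiableWithinAt_of_mem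
  filter_upwards [h1, h2, h3] with c k1 k2 k3 hc
  have hcI : c ∈ Icc (0 : ℝ) C := ⟨hc.1.le, hc.2.le⟩
  have hη : η c ∈ Ioo (0 : ℝ) 1 := by
    have a1 := hsp 0 F.zero_mem c hcI hc.1.le
    have a2 := hsp c hcI C F.C_mem hc.2.le
    rw [F.η0] at a1
    rw [F.ηC] at a2
    exact ⟨by linarith [hc.1], by linarith [hc.2]⟩
  have hd := (k2 hcI).differentiableAt (Icc_mem_nhds hc.1 hc.2)
  refine ⟨hη, (k1 hc hη).1, (k1 hc hη).2, ⟨deriv η c, ?_, hd.hasDerivAt⟩, fun i => ?_⟩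
  · have t1 : Tendsto (slope η c) (𝓝[>] c) (𝓝 (deriv η c)) :=
      (hasDerivAt_iff_tendsto_slope.1 hd.hasDerivAt).mono_left (nhdsWithin_mono _ fun x hx => (ne_of_gt hx))
    refine ge_of_tendsto t1 ?_
    filter_upwards [Ioo_mem_nhdsGT hc.2] with x hx
    rw [slope_def_field, le_div_iff₀ (sub_pos.2 hx.1), one_mul]
    exact hsp c hcI x ⟨hc.1.le.trans hx.1.le, hx.2.le⟩ hx.1.le
  · have hdi := (k3 i hcI).differentiableAt (Icc_mem_nhds hc.1 hc.2)
    refine ⟨deriv (L i) c, ?_, hdi.hasDerivAt⟩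
    exact Helper30.TYP.deriv_nonneg_of_mono ((hL i).mono Ioo_subset_Icc_self) hc hdi.hasDerivAt

/-- **TOP AT A TYPICAL WINDOW.** At the windows `c + s e` the digits between `η c + a e` and `η c + b e`, `η'(c) s ≤ a`,
have the density `gm (η c)` -/
theorem Good.top_win (F : Fam η G C) {c w : ℝ} (hc : c ∈ Ioo (0 : ℝ) C) (hr : Good η G C (η c))
    (hw : HasDerivAt η w c) {s a b : ℝ} (hs : w * s ≤ a) (hab : a ≤ b) {α : Type*} {l : Filter α} {e : α → ℝ}
    (he : Tendsto e l (𝓝 0)) (hpos : ∀ᶠ j in l, 0 < e j) :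
    Tendsto (fun j => (G (c + s * e j) (η c + b * e j) - G (c + s * e j) (η c + a * e j)) / e j) l
      (𝓝 (gm η G C (η c) * (b - a))) := by
  have hcI : c ∈ Icc (0 : ℝ) C := ⟨hc.1.le, hc.2.le⟩
  have hce : Tendsto (fun j => c + s * e j) l (𝓝 c) := by simpa using (he.const_mul s).const_add c
  refine hr.top_lim' F hab he hpos (hce.eventually (Icc_mem_nhds hc.1 hc.2)) (fun a' ha' => ?_) (fun q hq hqη => ?_)
  · have h1 := incr_tendsto hw he hpos 0 s
    simp only [zero_mul, add_zero, sub_zero] at h1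
    filter_upwards [(tendsto_order.1 h1).2 a' (hs.trans_lt ha'), hpos] with j h2 h3
    rw [div_lt_iff₀ h3] at h2
    linarith
  · have hqc : q < c := by
      by_contra h
      exact absurd (F.mono hcI hq (not_lt.1 h)) (not_le.2 hqη)
    exact (hce.eventually (lt_mem_nhds hqc)).mono fun _ h => h.le

/-- derivatives of readings of monotone functions are not negative -/
theorem Fam.reading_nonneg (F : Fam η G C) {L : ℝ → ℝ} (hL : MonotoneOn L (Icc 0 C)) {r y : ℝ} (hr : r ∈ Ioo (0 : ℝ) 1)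
    (hy : HasDerivAt (fun x => L (crit η C x)) y r) : 0 ≤ y := by
  have h1 : Tendsto (slope (fun x => L (crit η C x)) r) (𝓝[>] r) (𝓝 y) :=
    (hasDerivAt_iff_tendsto_slope.1 hy).mono_left (nhdsWithin_mono _ fun x hx => (ne_of_gt hx))
  refine ge_of_tendsto h1 ?_
  filter_upwards [Ioo_mem_nhdsGT hr.2] with x hx
  rw [slope_def_field]
  refine div_nonneg (sub_nonneg.2 ?_) (sub_nonneg.2 hx.1.le)
  exact hL (F.crit_mem hr.2.le) (F.crit_mem hx.2.le) (F.crit_mono hr.2.le hx.2.le hx.1.le)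

/-- **TYPICAL LEVELS, ALL PROPERTIES.** There is a level `r` with every almost sure property, good, TOP from every lower
level with the density `θ < 1`, at which `crit` and the readings of countably many monotone functions of the window are
differentiable (all ratios finite), and `r` is inside a jump (`crit` is locally constant), or windows and levels
increase strictly together at `r`. In the second case with `k > 0`: `crit_inner`, `hasDeriv_η`, `hasDeriv_L`,
`Good.top_win`; with `k = 0`: infinite speed, `Good.top_lim'`; in the first case: `jump_lim`. -/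
theorem Fam.typical (F : Fam η G C) {θ : ℝ} (hθ : G 0 1 - G 0 0 < θ) (hθ1 : θ ≤ 1) {ι : Type*} [Countable ι]
    {L : ι → ℝ → ℝ} (hL : ∀ i, MonotoneOn (L i) (Icc 0 C)) {Q : ℝ → Prop} (hQ : ∀ᵐ r, r ∈ Ioo (0 : ℝ) 1 → Q r) :
    ∃ r ∈ Ioo (0 : ℝ) 1, Good η G C r ∧ Q r ∧ (∀ x ∈ Icc (0 : ℝ) r, ∫ t in x..r, gm η G C t ≤ θ * (r - x)) ∧
      gm η G C r ≤ θ ∧ (∃ k, 0 ≤ k ∧ HasDerivAt (crit η C) k r) ∧
      (∀ i, ∃ y, 0 ≤ y ∧ HasDerivAt (fun x => L i (crit η C x)) y r) ∧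
      ((∀ᶠ x in 𝓝 r, crit η C x = crit η C r) ∨
        ((∀ x ∈ Ioo (0 : ℝ) r, crit η C x < crit η C r) ∧ ∀ x ∈ Ioo r 1, crit η C r < crit η C x)) := by
  have h1 : ∀ᵐ r : ℝ, ∀ i, r ∈ Ioo (0 : ℝ) 1 → DifferentiableAt ℝ (fun x => L i (crit η C x)) r :=
    ae_all_iff.2 fun i => F.ae_diff (hL i)
  have h2 : ∀ᵐ r : ℝ, r ∈ Ioo (0 : ℝ) 1 → (∀ᶠ x in 𝓝 r, crit η C x = crit η C r) ∨
      ((∀ x ∈ Ioo (0 : ℝ) r, crit η C x < crit η C r) ∧ ∀ x ∈ Ioo r 1, crit η C r < crit η C x) :=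
    ae_flat_or_strict fun a ha b hb hab => F.crit_mono ha.2.le hb.2.le hab
  obtain ⟨r, hr, hg, ⟨q1, q2, q3, q4⟩, ht, hm⟩ := F.exists_typical hθ hθ1 (Q := fun r => Q r ∧
      DifferentiableAt ℝ (crit η C) r ∧ (∀ i, DifferentiableAt ℝ (fun x => L i (crit η C x)) r) ∧
      ((∀ᶠ x in 𝓝 r, crit η C x = crit η C r) ∨
        ((∀ x ∈ Ioo (0 : ℝ) r, crit η C x < crit η C r) ∧ ∀ x ∈ Ioo r 1, crit η C r < crit η C x))) (by
    filter_upwards [hQ, F.ae_diff_crit, h1, h2] with r a1 a2 a3 a4 hr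
    exact ⟨a1 hr, a2 hr, fun i => a3 i hr, a4 hr⟩)
  refine ⟨r, hr, hg, q1, ht, hm, ⟨_, ?_, q2.hasDerivAt⟩, fun i => ⟨_, ?_, (q3 i).hasDerivAt⟩, q4⟩
  · exact F.reading_nonneg (L := fun c => c) (fun _ _ _ _ h => h) hr q2.hasDerivAt
  · exact F.reading_nonneg (hL i) hr (q3 i).hasDerivAt

end Pool.Agent.Helper75.MX
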